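import Pool.Agent.H619.FR.PSR
import Pool.Agent.H619.FR.AFR
import Pool.Agent.H619.FR.STR
import Pool.Agent.H619.FR.INR
import Pool.Agent.H619.FR.COV
import Pool.Agent.H619.FR.VOL
import Pool.Agent.H619.FR.SPX
import Pool.Agent.H619.CS.SL

/-!
# The question of Fary and Redei for polytopes with at most `d + 2` vertices

For every `d` and every polytope `K` in `ℝ^d` with nonempty interior which is the convex hull of
`d + 2` points, the reflection body of `K` about its centroid has volume at most
`choose d (d/2) * vol K`.

Proof. If `K` is not a simplex, two of its vertices can be moved along the line through them so that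
`K` becomes the body `K_t` whose chords in this direction have the midpoints `t c` instead of `c`, with
one `t` in `[-1, 1]` for all chords; here `K_1` is the hull of `d + 2` points whose affine dependence
has fewer positive coefficients. The volume does not change, the centroid moves along the direction,
and the chords of the reflection body of `K_t` about the centroid have lengths which are even, convex
functions of `t`. So the reflection body of `K` is at most that of `K_1`. By induction one comes to a
simplex `S` with centroid `0`. Writing a point of `conv (S ∪ -S)` with the medians of its coefficients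
moved to `0`, one covers it by `(d + 1) * choose d (d/2)` simplices with volume `vol S / (d + 1)`.
-/

set_option autoImplicit false

open MeasureTheory Set

namespace Pool.Agent.Results.MP_725e58_gt.FewVertices

/-- **The conjecture of Fary and Redei for polytopes with at most `d + 2` vertices.** -/
theorem result (d : ℕ) (w : Fin (d + 2) → EuclideanSpace ℝ (Fin d))
    (hw : (interior (convexHull ℝ (range w))).Nonempty) :
    ∃ x ∈ convexHull ℝ (range w),
      volume (convexHull ℝ (convexHull ℝ (range w) ∪
          (fun y => (2 : ℝ) • x - y) '' convexHull ℝ (range w)))
        ≤ ((Nat.choose d (d / 2) : ℕ) : ENNReal) * volume (convexHull ℝ (range w)) := by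
  have afr := Pool.Agent.H619.FR.afr Pool.Agent.H619.CS.aff
  have spx := Pool.Agent.H619.FR.spx Pool.Agent.H619.BB.cens afr Pool.Agent.H619.FR.cov
    Pool.Agent.H619.FR.vol
  have str := Pool.Agent.H619.FR.str afr Pool.Agent.H619.CS.ps
    (Pool.Agent.H619.FR.psr Pool.Agent.H619.CS.ps) Pool.Agent.H619.CS.sl
  refine ⟨Pool.Agent.H619.CS.cen volume (convexHull ℝ (range w)), ?_,
    Pool.Agent.H619.FR.inr spx str d w hw⟩
  have hc : IsCompact (convexHull ℝ (range w)) := (finite_range w).isCompact_convexHull ℝ
  have h0 : volume (convexHull ℝ (range w)) ≠ 0 := by
    have h2 : 0 < volume (interior (convexHull ℝ (range w))) := isOpen_interior.measure_pos _ hw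
    exact (h2.trans_le (measure_mono interior_subset)).ne'
  have h1 := (convex_convexHull ℝ (range w)).set_average_mem (μ := volume)
    (t := convexHull ℝ (range w)) (f := fun x => x) hc.isClosed h0 hc.measure_lt_top.ne
    (ae_restrict_mem hc.measurableSet) (continuous_id.continuousOn.integrableOn_compact hc)
  rw [setAverage_eq] at h1
  exact h1

end Pool.Agent.Results.MP_725e58_gt.FewVertices
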